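import Pool.Agent.Helper50.D71.Geo

/-!
# Block G5: finitely many points of a quasi-projective scheme lie in an affine open set
-/

open AlgebraicGeometry CategoryTheory MvPolynomial

universe u

namespace Helper50.D71

attribute [local instance] MvPolynomial.gradedAlgebra

section

variable {k : Type u} [Field k]

/-- a point of an open subset of projective space lies in a basic open subset of a homogeneous
polynomial of positive degree -/
lemma exists_homogeneous_basicOpen {n : ℕ}
    (O : (Proj (homogeneousSubmodule (Fin (n + 1)) k)).Opens)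
    (x : Proj (homogeneousSubmodule (Fin (n + 1)) k)) (hx : x ∈ O) :
    ∃ (d : ℕ) (f : MvPolynomial (Fin (n + 1)) k), 0 < d ∧ f ∈ homogeneousSubmodule (Fin (n + 1)) k d ∧
      x ∈ Proj.basicOpen (homogeneousSubmodule (Fin (n + 1)) k) f ∧
      Proj.basicOpen (homogeneousSubmodule (Fin (n + 1)) k) f ≤ O := by
  classical
  obtain ⟨_, ⟨_, ⟨g, rfl⟩, rfl⟩, hxg, hgO⟩ := (Proj.isBasis_basicOpen
    (homogeneousSubmodule (Fin (n + 1)) k)).exists_subset_of_mem_open hx O.2
  rw [Proj.basicOpen_eq_iSup_proj] at hxg
  obtain ⟨a, ha⟩ := TopologicalSpace.Opens.mem_iSup.mp hxg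
  have hX : ∃ j : Fin (n + 1), x ∈ Proj.basicOpen (homogeneousSubmodule (Fin (n + 1)) k)
      (X j : MvPolynomial (Fin (n + 1)) k) := by
    have h1 : ⨆ j : Fin (n + 1), Proj.basicOpen (homogeneousSubmodule (Fin (n + 1)) k)
        (X j : MvPolynomial (Fin (n + 1)) k) = ⊤ := by
      apply Proj.iSup_basicOpen_eq_top'
      · intro i
        exact ⟨1, isHomogeneous_X k i⟩
      · rw [eq_top_iff]
        intro p _
        induction p using MvPolynomial.induction_on with
        | C c =>
          have : (C c : MvPolynomial (Fin (n + 1)) k) =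
              algebraMap (homogeneousSubmodule (Fin (n + 1)) k 0) _
                ⟨C c, isHomogeneous_C _ c⟩ := rfl
          rw [this]
          exact Subalgebra.algebraMap_mem _ _
        | add p q hp hq => exact add_mem (hp trivial) (hq trivial)
        | mul_X p j hp =>
          exact mul_mem (hp trivial) (Algebra.subset_adjoin ⟨j, rfl⟩)
    have h2 : x ∈ (⊤ : (Proj (homogeneousSubmodule (Fin (n + 1)) k)).Opens) := trivial
    rw [← h1] at h2
    exact TopologicalSpace.Opens.mem_iSup.mp h2
  obtain ⟨j, hj⟩ := hX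
  refine ⟨a + 1, GradedRing.proj (homogeneousSubmodule (Fin (n + 1)) k) a g * X j,
    Nat.succ_pos _, ?_, ?_, ?_⟩
  · apply SetLike.mul_mem_graded
    · rw [GradedRing.proj_apply]
      exact SetLike.coe_mem _
    · exact isHomogeneous_X k j
  · rw [Proj.basicOpen_mul]
    exact ⟨ha, hj⟩
  · refine le_trans ?_ (show Proj.basicOpen _ g ≤ O from hgO)
    rw [Proj.basicOpen_mul, Proj.basicOpen_eq_iSup_proj _ g]
    exact inf_le_left.trans (le_iSup (fun i => Proj.basicOpen _
      (GradedRing.proj (homogeneousSubmodule (Fin (n + 1)) k) i g)) a)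

/-- homogeneous prime avoidance over an infinite field -/
lemma exists_homogeneous_basicOpen_of_finite [Infinite k] {n : ℕ}
    (O : (Proj (homogeneousSubmodule (Fin (n + 1)) k)).Opens)
    (T : Set (Proj (homogeneousSubmodule (Fin (n + 1)) k))) (hT : T.Finite) (hTO : T ⊆ O) :
    ∃ (d : ℕ) (f : MvPolynomial (Fin (n + 1)) k), 0 < d ∧ f ∈ homogeneousSubmodule (Fin (n + 1)) k d ∧
      T ⊆ Proj.basicOpen (homogeneousSubmodule (Fin (n + 1)) k) f ∧
      Proj.basicOpen (homogeneousSubmodule (Fin (n + 1)) k) f ≤ O := by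
  classical
  choose! d f hd hf hxf hfO using fun x (hx : x ∈ T) =>
    exists_homogeneous_basicOpen O x (hTO hx)
  let s := hT.toFinset
  let D := ∏ x ∈ s, d x
  have hDpos : 0 < D := Finset.prod_pos fun x hx => hd x (hT.mem_toFinset.mp hx)
  -- the space of forms of degree `D` whose basic open set is contained in `O`
  let V : Submodule k (MvPolynomial (Fin (n + 1)) k) :=
    { carrier := {g | g ∈ homogeneousSubmodule (Fin (n + 1)) k D ∧
        Proj.basicOpen (homogeneousSubmodule (Fin (n + 1)) k) g ≤ O}
      zero_mem' := ⟨zero_mem _, by rw [Proj.basicOpen_zero]; exact bot_le⟩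
      add_mem' := by
        rintro a b ⟨ha, ha'⟩ ⟨hb, hb'⟩
        refine ⟨add_mem ha hb, fun x hx => ?_⟩
        by_cases hxa : x ∈ Proj.basicOpen (homogeneousSubmodule (Fin (n + 1)) k) a
        · exact ha' hxa
        · apply hb'
          change b ∉ x.asHomogeneousIdeal
          change ¬ a ∉ x.asHomogeneousIdeal at hxa
          change a + b ∉ x.asHomogeneousIdeal at hx
          intro hbx
          exact hx (add_mem (not_not.mp hxa) hbx)
      smul_mem' := by
        rintro c a ⟨ha, ha'⟩
        refine ⟨Submodule.smul_mem _ c ha, fun x hx => ha' ?_⟩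
        change a ∉ x.asHomogeneousIdeal
        change c • a ∉ x.asHomogeneousIdeal at hx
        intro hax
        apply hx
        rw [MvPolynomial.smul_eq_C_mul]
        exact x.asHomogeneousIdeal.toIdeal.mul_mem_left _ hax }
  let W : Proj (homogeneousSubmodule (Fin (n + 1)) k) → Submodule k V := fun x =>
    { carrier := {g | (g : MvPolynomial (Fin (n + 1)) k) ∈ x.asHomogeneousIdeal}
      zero_mem' := by
        simp only [Set.mem_ofPred_eq, ZeroMemClass.coe_zero]
        exact zero_mem _
      add_mem' := fun {a b} ha hb => by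
        simp only [Set.mem_ofPred_eq, Submodule.coe_add] at ha hb ⊢
        exact add_mem ha hb
      smul_mem' := fun c a ha => by
        simp only [Set.mem_ofPred_eq, Submodule.coe_smul] at ha ⊢
        rw [MvPolynomial.smul_eq_C_mul]
        exact x.asHomogeneousIdeal.toIdeal.mul_mem_left _ ha }
  have hWne : ∀ x ∈ T, W x ≠ ⊤ := by
    intro x hx hW
    have hdvd : d x ∣ D := Finset.dvd_prod_of_mem d (hT.mem_toFinset.mpr hx)
    obtain ⟨e, he⟩ := hdvd
    have hepos : 0 < e := by
      rcases Nat.eq_zero_or_pos e with h | h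
      · rw [h, mul_zero] at he; omega
      · exact h
    have hmem : f x ^ e ∈ V := by
      refine ⟨?_, ?_⟩
      · have := SetLike.pow_mem_graded e (hf x hx)
        rw [smul_eq_mul, mul_comm, ← he] at this
        exact this
      · rw [Proj.basicOpen_pow _ _ _ hepos]
        exact hfO x hx
    have h1 : (⟨f x ^ e, hmem⟩ : V) ∈ W x := by rw [hW]; trivial
    have h2 : f x ^ e ∈ x.asHomogeneousIdeal := h1
    have h3 : f x ∈ x.asHomogeneousIdeal := x.isPrime.mem_of_pow_mem e h2
    exact (hxf x hx) h3
  have hcov := Subspace.biUnion_ne_univ_of_top_notMem (k := k) (E := V) (s := s.image W) (by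
    intro h
    obtain ⟨x, hx, hxW⟩ := Finset.mem_image.mp h
    exact hWne x (hT.mem_toFinset.mp hx) hxW)
  obtain ⟨g, hg⟩ := (Set.ne_univ_iff_exists_notMem _).mp hcov
  refine ⟨D, g, hDpos, g.2.1, ?_, g.2.2⟩
  intro x hx
  change (g : MvPolynomial (Fin (n + 1)) k) ∉ x.asHomogeneousIdeal
  intro hgx
  apply hg
  simp only [Set.mem_iUnion]
  exact ⟨W x, Finset.mem_image_of_mem W (hT.mem_toFinset.mpr hx), hgx⟩

/-- Finitely many points of a locally closed subscheme of projective space over an infinite field
lie in an affine open subset. -/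
lemma exists_affine_of_isImmersion [Infinite k] {n : ℕ} {X : Scheme.{u}}
    (i : X ⟶ Proj (homogeneousSubmodule (Fin (n + 1)) k)) [IsImmersion i]
    (S : Set X) (hS : S.Finite) :
    ∃ U : X.Opens, IsAffineOpen U ∧ S ⊆ U := by
  obtain ⟨D, F, hD, hF, hSF, hFO⟩ := exists_homogeneous_basicOpen_of_finite i.coborderRange
    (i '' S) (hS.image _) (by
      rintro _ ⟨x, -, rfl⟩
      exact subset_coborder ⟨x, rfl⟩)
  have haff : IsAffineOpen (Proj.basicOpen (homogeneousSubmodule (Fin (n + 1)) k) F) :=
    Proj.isAffineOpen_basicOpen _ F hF hD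
  refine ⟨i.liftCoborder ⁻¹ᵁ (i.coborderRange.ι ⁻¹ᵁ
    Proj.basicOpen (homogeneousSubmodule (Fin (n + 1)) k) F), ?_, ?_⟩
  · apply IsAffineOpen.preimage
    apply haff.preimage_of_isOpenImmersion
    rw [Scheme.Opens.opensRange_ι]
    exact hFO
  · intro x hx
    have := hSF (Set.mem_image_of_mem i hx)
    rw [← Scheme.Hom.comp_preimage, Scheme.Hom.liftCoborder_ι]
    exact this

end

/-- Finitely many points of a quasi-projective scheme over an infinite field lie in an affine
open subset. -/
theorem IsQuasiProjective.exists_affine {k : Type u} [Field k] [Infinite k] {X : Scheme.{u}}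
    {f : X ⟶ Spec (.of k)}
    (hf : IsQuasiProjective f) (S : Set X) (hS : S.Finite) :
    ∃ U : X.Opens, IsAffineOpen U ∧ S ⊆ U := by
  obtain ⟨n, i, hi, -⟩ := hf
  have hi' : IsImmersion (Y := Proj (homogeneousSubmodule (Fin (n + 1)) k)) i := hi
  exact exists_affine_of_isImmersion (n := n) i S hS

end Helper50.D71
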