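import Pool.Agent.Helper83.D71.Model

/-!
# Block G4: a scheme covered by two charts is quasi-projective

Two charts `Spec (A i)`, `Spec (A j)` whose intersection is the locus where a rational function `φ`
is a unit, `φ` being regular on the second chart and `φ⁻¹` on the first.
-/

open AlgebraicGeometry CategoryTheory CategoryTheory.Limits MvPolynomial HomogeneousLocalization

universe u

namespace Helper50.D71

attribute [local instance] MvPolynomial.gradedAlgebra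

section QpGlue

/-- gluing two morphisms along an open subset -/
lemma qp_glue_two {X P Q R Z : Scheme.{u}} (a : P ⟶ X) (b : Q ⟶ X) [IsOpenImmersion a]
    [IsOpenImmersion b] (hcov : ∀ x : X, x ∈ Set.range a ∨ x ∈ Set.range b)
    (r₁ : R ⟶ P) (r₂ : R ⟶ Q) [IsOpenImmersion r₁] (hr : r₁ ≫ a = r₂ ≫ b)
    (hinter : Set.range a ∩ Set.range b ⊆ Set.range (r₁ ≫ a))
    (g : P ⟶ Z) (h : Q ⟶ Z) (hgh : r₁ ≫ g = r₂ ≫ h) :
    ∃ G : X ⟶ Z, a ≫ G = g ∧ b ≫ G = h := by
  have key : pullback.fst a b ≫ g = pullback.snd a b ≫ h := by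
    have hrange : Set.range (pullback.fst a b ≫ a) ⊆ Set.range (r₁ ≫ a) := by
      refine subset_trans ?_ hinter
      rintro _ ⟨x, rfl⟩
      refine ⟨⟨pullback.fst a b x, rfl⟩, ⟨pullback.snd a b x, ?_⟩⟩
      rw [pullback.condition]
      rfl
    let l : pullback a b ⟶ R := IsOpenImmersion.lift (r₁ ≫ a) (pullback.fst a b ≫ a) hrange
    have hl : l ≫ r₁ ≫ a = pullback.fst a b ≫ a := IsOpenImmersion.lift_fac _ _ _
    have h1 : l ≫ r₁ = pullback.fst a b := by
      rw [← cancel_mono a, Category.assoc, hl]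
    have h2 : l ≫ r₂ = pullback.snd a b := by
      rw [← cancel_mono b, Category.assoc, ← hr, hl, pullback.condition]
    rw [← h1, ← h2, Category.assoc, Category.assoc, hgh]
  let F : Bool → Scheme.{u} := fun t => if t then P else Q
  let f : ∀ t, F t ⟶ X := fun t => match t with
    | true => a
    | false => b
  let gg : ∀ t, F t ⟶ Z := fun t => match t with
    | true => g
    | false => h
  let 𝒰 : X.OpenCover := .mkOfCovers Bool F f (by
      intro x
      rcases hcov x with ⟨y, hy⟩ | ⟨y, hy⟩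
      · exact ⟨true, y, hy⟩
      · exact ⟨false, y, hy⟩) (by
      intro t
      cases t
      · exact (inferInstance : IsOpenImmersion b)
      · exact (inferInstance : IsOpenImmersion a))
  have hc : ∀ x y, pullback.fst (𝒰.f x) (𝒰.f y) ≫ gg x = pullback.snd _ _ ≫ gg y := by
    intro x y
    cases x <;> cases y
    · change pullback.fst b b ≫ h = pullback.snd b b ≫ h
      have : pullback.fst b b = pullback.snd b b := by
        rw [← cancel_mono b, pullback.condition]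
      rw [this]
    · change pullback.fst b a ≫ h = pullback.snd b a ≫ g
      rw [← cancel_epi (pullbackSymmetry a b).hom, ← Category.assoc, ← Category.assoc,
        pullbackSymmetry_hom_comp_fst, pullbackSymmetry_hom_comp_snd, key]
    · exact key
    · change pullback.fst a a ≫ g = pullback.snd a a ≫ g
      have : pullback.fst a a = pullback.snd a a := by
        rw [← cancel_mono a, pullback.condition]
      rw [this]
  exact ⟨𝒰.glueMorphisms gg hc, 𝒰.ι_glueMorphisms gg hc true, 𝒰.ι_glueMorphisms gg hc false⟩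

/-- morphisms are determined on two covering charts -/
lemma qp_hom_ext_two {X P Q Z : Scheme.{u}} (a : P ⟶ X) (b : Q ⟶ X) [IsOpenImmersion a]
    [IsOpenImmersion b] (hcov : ∀ x : X, x ∈ Set.range a ∨ x ∈ Set.range b)
    {G H : X ⟶ Z} (h1 : a ≫ G = a ≫ H) (h2 : b ≫ G = b ≫ H) : G = H := by
  let F : Bool → Scheme.{u} := fun t => if t then P else Q
  let f : ∀ t, F t ⟶ X := fun t => match t with
    | true => a
    | false => b
  let 𝒰 : X.OpenCover := .mkOfCovers Bool F f (by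
      intro x
      rcases hcov x with ⟨y, hy⟩ | ⟨y, hy⟩
      · exact ⟨true, y, hy⟩
      · exact ⟨false, y, hy⟩) (by
      intro t
      cases t
      · exact (inferInstance : IsOpenImmersion b)
      · exact (inferInstance : IsOpenImmersion a))
  refine 𝒰.hom_ext _ _ fun t => ?_
  cases t
  · exact h2
  · exact h1

/-- local criterion for immersions -/
lemma qp_isImmersion {X P Q Z : Scheme.{u}} (a : P ⟶ X) (b : Q ⟶ X) [IsOpenImmersion a]
    [IsOpenImmersion b] (hcov : ∀ x : X, x ∈ Set.range a ∨ x ∈ Set.range b)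
    (G : X ⟶ Z) [IsImmersion (a ≫ G)] [IsImmersion (b ≫ G)] (V W : Z.Opens)
    (hV : G ⁻¹ᵁ V = a.opensRange) (hW : G ⁻¹ᵁ W = b.opensRange) : IsImmersion G := by
  have aux : ∀ {P : Scheme.{u}} (a : P ⟶ X) [IsOpenImmersion a] [IsImmersion (a ≫ G)]
      (V : Z.Opens) (_ : G ⁻¹ᵁ V = a.opensRange), IsImmersion ((G ⁻¹ᵁ V).ι ≫ G) := by
    intro P a _ _ V hV
    rw [hV]
    have h1 : (IsOpenImmersion.isoOfRangeEq a.opensRange.ι a (by simp)).hom ≫ a =
        a.opensRange.ι := IsOpenImmersion.isoOfRangeEq_hom_fac _ _ _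
    rw [← h1, Category.assoc]
    infer_instance
  have : MorphismProperty.HasOfPostcompProperty @IsImmersion @IsOpenImmersion :=
    ⟨fun f g _ hfg => by
      have : IsImmersion (f ≫ g) := hfg
      exact IsImmersion.of_comp f g⟩
  have : MorphismProperty.RespectsRight @IsImmersion @IsOpenImmersion :=
    ⟨fun i hi f hf => by
      have : IsImmersion f := hf
      have : IsOpenImmersion i := hi
      exact (inferInstance : IsImmersion (f ≫ i))⟩
  apply IsZariskiLocalAtTarget.of_forall_source_exists_preimage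
  intro x
  rcases hcov x with hx | hx
  · refine ⟨V, ?_, aux a V hV⟩
    change x ∈ G ⁻¹ᵁ V
    rw [hV]
    exact hx
  · refine ⟨W, ?_, aux b W hW⟩
    change x ∈ G ⁻¹ᵁ W
    rw [hW]
    exact hx

end QpGlue

section Ev

variable {k : Type u} [Field k] {K : Type u} [Field K] [Algebra k K] {n : ℕ}

lemma qp_X_mem (a : Fin (n + 1)) :
    (X a : MvPolynomial (Fin (n + 1)) k) ∈ homogeneousSubmodule (Fin (n + 1)) k 1 :=
  isHomogeneous_X k a

/-- evaluation of a fraction of homogeneous polynomials at a point with coordinates in `K` -/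
noncomputable def qpEv (m : Fin (n + 1) → K) (p : MvPolynomial (Fin (n + 1)) k)
    (hp : aeval m p ≠ 0) : Away (homogeneousSubmodule (Fin (n + 1)) k) p →+* K :=
  (IsLocalization.Away.lift (S := Localization.Away p) p
    (g := (aeval m : MvPolynomial (Fin (n + 1)) k →ₐ[k] K).toRingHom)
    (isUnit_iff_ne_zero.mpr hp)).comp
    (algebraMap (Away (homogeneousSubmodule (Fin (n + 1)) k) p) (Localization.Away p))

lemma qpEv_mk (m : Fin (n + 1) → K) (p : MvPolynomial (Fin (n + 1)) k)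
    (hp : aeval m p ≠ 0) {d : ℕ} (hd : p ∈ homogeneousSubmodule (Fin (n + 1)) k d) (i : ℕ)
    (x : MvPolynomial (Fin (n + 1)) k) (hx : x ∈ homogeneousSubmodule (Fin (n + 1)) k (i • d)) :
    qpEv m p hp (Away.mk _ hd i x hx) = aeval m x / (aeval m p) ^ i := by
  rw [eq_div_iff (pow_ne_zero _ hp)]
  change IsLocalization.Away.lift (S := Localization.Away p) p
    (g := (aeval m : MvPolynomial (Fin (n + 1)) k →ₐ[k] K).toRingHom)
    (isUnit_iff_ne_zero.mpr hp) (Away.mk _ hd i x hx).val * (aeval m p) ^ i = aeval m x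
  rw [Away.val_mk, Localization.mk_eq_mk', ← map_pow]
  have h := IsLocalization.Away.lift_eq (S := Localization.Away p) p
    (g := (aeval m : MvPolynomial (Fin (n + 1)) k →ₐ[k] K).toRingHom)
    (isUnit_iff_ne_zero.mpr hp)
  have h1 : (aeval m (p ^ i) : K) = IsLocalization.Away.lift (S := Localization.Away p) p
    (g := (aeval m : MvPolynomial (Fin (n + 1)) k →ₐ[k] K).toRingHom)
    (isUnit_iff_ne_zero.mpr hp) (algebraMap _ _ (p ^ i)) := (h _).symm
  rw [h1, ← map_mul, IsLocalization.mk'_spec, h]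
  rfl

lemma qpEv_awayMap (m : Fin (n + 1) → K) (p q r : MvPolynomial (Fin (n + 1)) k)
    (hp : aeval m p ≠ 0) {d e : ℕ} (hd : p ∈ homogeneousSubmodule (Fin (n + 1)) k d)
    (hq : q ∈ homogeneousSubmodule (Fin (n + 1)) k e) (hr : r = p * q) (hr0 : aeval m r ≠ 0)
    (z : Away (homogeneousSubmodule (Fin (n + 1)) k) p) :
    qpEv m r hr0 (awayMap _ hq hr z) = qpEv m p hp z := by
  obtain ⟨i, x, hx, rfl⟩ := Away.mk_surjective _ hd z
  rw [awayMap_mk, qpEv_mk, qpEv_mk]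
  subst hr
  rw [map_mul] at hr0
  have hq0 := right_ne_zero_of_mul hr0
  rw [map_mul, map_pow, map_mul, mul_pow]
  field_simp

lemma aeval_mul_homogeneous (m : Fin (n + 1) → K) (t : K) (x : MvPolynomial (Fin (n + 1)) k)
    (r : ℕ) (hx : x ∈ homogeneousSubmodule (Fin (n + 1)) k r) :
    aeval (fun a => t * m a) x = t ^ r * aeval m x := by
  rw [aeval_def, aeval_def]
  have h : x.IsHomogeneous r := hx
  rw [eval₂_eq, eval₂_eq, Finset.mul_sum]
  refine Finset.sum_congr rfl fun d hd => ?_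
  have hdeg : ∑ i ∈ d.support, d i = r := by
    have := h (mem_support_iff.mp hd)
    rw [← this, Finsupp.weight_apply, Finsupp.sum]
    simp
  simp_rw [mul_pow]
  rw [Finset.prod_mul_distrib, Finset.prod_pow_eq_pow_sum, hdeg]
  ring

/-- the values of the chart maps -/
lemma qpEv_X_mem (m : Fin (n + 1) → K) (a : Fin (n + 1)) (ha : aeval m (X a : MvPolynomial _ k) ≠ 0)
    (B : Subalgebra k K) (hB : ∀ b, m b / m a ∈ B)
    (z : Away (homogeneousSubmodule (Fin (n + 1)) k) (X a)) : qpEv m (X a) ha z ∈ B := by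
  obtain ⟨i, x, hx, rfl⟩ := Away.mk_surjective _ (qp_X_mem a) z
  rw [qpEv_mk]
  rw [aeval_X] at ha ⊢
  have hx' : x ∈ homogeneousSubmodule (Fin (n + 1)) k i := by simpa using hx
  have h1 : aeval (fun b => m b / m a) x = aeval m x / m a ^ i := by
    have := aeval_mul_homogeneous m (m a)⁻¹ x i hx'
    rw [inv_pow, ← div_eq_inv_mul] at this
    rw [← this]
    congr 2
    ext b
    rw [div_eq_inv_mul]
  rw [← h1]
  have h2 : aeval (fun b => m b / m a) x = ((aeval (fun b => (⟨m b / m a, hB b⟩ : B)) x : B) : K) := by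
    have h3 : (aeval (fun b => m b / m a) : MvPolynomial (Fin (n + 1)) k →ₐ[k] K) =
        B.val.comp (aeval (R := k) (fun b => (⟨m b / m a, hB b⟩ : B))) := by
      ext b
      simp
    rw [h3]
    rfl
  rw [h2]
  exact SetLike.coe_mem _

lemma qpEv_XX_mem (m : Fin (n + 1) → K) (a c : Fin (n + 1))
    (hac : aeval m (X a * X c : MvPolynomial _ k) ≠ 0)
    (B : Subalgebra k K) (hB : ∀ b, m b / m a ∈ B) (hB' : m a / m c ∈ B)
    (z : Away (homogeneousSubmodule (Fin (n + 1)) k) (X a * X c)) :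
    qpEv m (X a * X c) hac z ∈ B := by
  obtain ⟨i, x, hx, rfl⟩ := Away.mk_surjective _
    (SetLike.mul_mem_graded (qp_X_mem a) (qp_X_mem c)) z
  rw [qpEv_mk]
  have ha : aeval m (X a : MvPolynomial _ k) ≠ 0 := by
    rw [map_mul] at hac
    exact left_ne_zero_of_mul hac
  have hc : aeval m (X c : MvPolynomial _ k) ≠ 0 := by
    rw [map_mul] at hac
    exact right_ne_zero_of_mul hac
  have hx' : x ∈ homogeneousSubmodule (Fin (n + 1)) k ((i * 2) • 1) := by simpa using hx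
  have h1 := qpEv_X_mem m a ha B hB (Away.mk _ (qp_X_mem a) (i * 2) x hx')
  rw [qpEv_mk] at h1
  rw [map_mul]
  rw [aeval_X] at ha h1 ⊢
  rw [aeval_X] at hc ⊢
  have h2 : aeval m x / (m a * m c) ^ i = aeval m x / m a ^ (i * 2) * (m a / m c) ^ i := by
    rw [div_pow, mul_pow, pow_mul, sq]
    field_simp
  rw [h2]
  exact mul_mem h1 (pow_mem hB' i)

lemma qpEv_X_surj (m : Fin (n + 1) → K) (a : Fin (n + 1))
    (ha : aeval m (X a : MvPolynomial _ k) ≠ 0)
    (B : Subalgebra k K) (hB : B ≤ Algebra.adjoin k (Set.range fun b => m b / m a))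
    (x : K) (hx : x ∈ B) : ∃ z, qpEv m (X a) ha z = x := by
  have hx' := hB hx
  clear hx
  induction hx' using Algebra.adjoin_induction with
  | mem x hx =>
    obtain ⟨b, rfl⟩ := hx
    refine ⟨Away.mk _ (qp_X_mem a) 1 (X b) (by simpa using isHomogeneous_X k b), ?_⟩
    rw [qpEv_mk]
    simp
  | algebraMap r =>
    refine ⟨Away.mk _ (qp_X_mem a) 0 (C r) (by simp), ?_⟩
    rw [qpEv_mk]
    simp
  | add x y _ _ hx hy =>
    obtain ⟨z, rfl⟩ := hx
    obtain ⟨w, rfl⟩ := hy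
    exact ⟨z + w, map_add _ _ _⟩
  | mul x y _ _ hx hy =>
    obtain ⟨z, rfl⟩ := hx
    obtain ⟨w, rfl⟩ := hy
    exact ⟨z * w, map_mul _ _ _⟩

end Ev

section Two

variable {k : Type u} [Field k] {K : Type u} [Field K] [Algebra k K] {n : ℕ}

lemma qpEv_fromZero (m : Fin (n + 1) → K) (p : MvPolynomial (Fin (n + 1)) k)
    (hp : aeval m p ≠ 0) (x : homogeneousSubmodule (Fin (n + 1)) k 0) :
    qpEv m p hp (fromZeroRingHom _ _ x) = aeval m (x : MvPolynomial (Fin (n + 1)) k) := by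
  change IsLocalization.Away.lift (S := Localization.Away p) p
    (g := (aeval m : MvPolynomial (Fin (n + 1)) k →ₐ[k] K).toRingHom)
    (isUnit_iff_ne_zero.mpr hp)
    (algebraMap _ (Localization.Away p) (x : MvPolynomial (Fin (n + 1)) k)) = _
  rw [IsLocalization.Away.lift_eq]
  rfl

/-- the map to projective space on one chart, as a ring homomorphism -/
noncomputable def qpRho (m : Fin (n + 1) → K) (a : Fin (n + 1))
    (ha : aeval m (X a : MvPolynomial (Fin (n + 1)) k) ≠ 0)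
    (B : Subalgebra k K) (hB : ∀ b, m b / m a ∈ B) :
    Away (homogeneousSubmodule (Fin (n + 1)) k) (X a) →+* B :=
  (qpEv m (X a) ha).codRestrict B (qpEv_X_mem m a ha B hB)

/-- the map to projective space on one chart -/
noncomputable def qpMap (m : Fin (n + 1) → K) (a : Fin (n + 1))
    (ha : aeval m (X a : MvPolynomial (Fin (n + 1)) k) ≠ 0)
    (B : Subalgebra k K) (hB : ∀ b, m b / m a ∈ B) :
    Spec (.of B) ⟶ Proj (homogeneousSubmodule (Fin (n + 1)) k) :=
  Spec.map (CommRingCat.ofHom (qpRho m a ha B hB)) ≫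
    Proj.awayι _ (X a) (qp_X_mem a) one_pos

lemma qpMap_range (m : Fin (n + 1) → K) (a : Fin (n + 1))
    (ha : aeval m (X a : MvPolynomial (Fin (n + 1)) k) ≠ 0)
    (B : Subalgebra k K) (hB : ∀ b, m b / m a ∈ B) (x : Spec (.of B)) :
    qpMap m a ha B hB x ∈ Proj.basicOpen (homogeneousSubmodule (Fin (n + 1)) k) (X a) := by
  rw [← Proj.opensRange_awayι _ _ (qp_X_mem a) one_pos]
  exact ⟨Spec.map (CommRingCat.ofHom (qpRho m a ha B hB)) x, rfl⟩

lemma qpMap_isImmersion (m : Fin (n + 1) → K) (a : Fin (n + 1))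
    (ha : aeval m (X a : MvPolynomial (Fin (n + 1)) k) ≠ 0)
    (B : Subalgebra k K) (hB : ∀ b, m b / m a ∈ B)
    (hB' : B ≤ Algebra.adjoin k (Set.range fun b => m b / m a)) :
    IsImmersion (qpMap m a ha B hB) := by
  have : IsClosedImmersion (Spec.map (CommRingCat.ofHom (qpRho m a ha B hB))) := by
    apply IsClosedImmersion.spec_of_surjective
    rintro ⟨x, hx⟩
    obtain ⟨z, hz⟩ := qpEv_X_surj m a ha B hB' x hx
    exact ⟨z, Subtype.ext hz⟩
  unfold qpMap
  infer_instance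

lemma qpMap_toSpec (m : Fin (n + 1) → K) (a : Fin (n + 1))
    (ha : aeval m (X a : MvPolynomial (Fin (n + 1)) k) ≠ 0)
    (B : Subalgebra k K) (hB : ∀ b, m b / m a ∈ B) :
    qpMap m a ha B hB ≫ PP.toSpec k n = Spec.map (CommRingCat.ofHom (algebraMap k B)) := by
  have h1 : qpMap m a ha B hB ≫ (Proj.toSpecZero (homogeneousSubmodule (Fin (n + 1)) k) ≫
    Spec.map (CommRingCat.ofHom
      (algebraMap k (MvPolynomial.homogeneousSubmodule (Fin (n + 1)) k 0)))) =
      Spec.map (CommRingCat.ofHom (algebraMap k B)) := by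
    unfold qpMap
    rw [Category.assoc, Proj.awayι_toSpecZero_assoc, ← Spec.map_comp, ← Spec.map_comp]
    congr 1
    ext r
    change qpEv m (X a) ha (fromZeroRingHom _ _ (algebraMap k _ r)) = algebraMap k K r
    rw [qpEv_fromZero]
    exact (aeval m : MvPolynomial (Fin (n + 1)) k →ₐ[k] K).commutes r
  exact h1

/-- the two maps agree on the intersection -/
lemma qpMap_compat (m : Fin (n + 1) → K) (a c : Fin (n + 1))
    (ha : aeval m (X a : MvPolynomial (Fin (n + 1)) k) ≠ 0)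
    (hc : aeval m (X c : MvPolynomial (Fin (n + 1)) k) ≠ 0)
    (A B : Subalgebra k K) (hA : ∀ b, m b / m a ∈ A) (hB : ∀ b, m b / m c ∈ B) :
    specIncl (le_sup_left : A ≤ A ⊔ B) ≫ qpMap m a ha A hA =
      specIncl (le_sup_right : B ≤ A ⊔ B) ≫ qpMap m c hc B hB := by
  have hac : aeval m (X a * X c : MvPolynomial (Fin (n + 1)) k) ≠ 0 := by
    rw [map_mul]; exact mul_ne_zero ha hc
  have hmem : ∀ z, qpEv m (X a * X c) hac z ∈ A ⊔ B :=
    qpEv_XX_mem m a c hac (A ⊔ B) (fun b => (le_sup_left : A ≤ A ⊔ B) (hA b))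
      ((le_sup_right : B ≤ A ⊔ B) (hB a))
  let ρ : Away (homogeneousSubmodule (Fin (n + 1)) k) (X a * X c) →+* ↥(A ⊔ B) :=
    (qpEv m (X a * X c) hac).codRestrict (A ⊔ B) hmem
  have h1 : specIncl (le_sup_left : A ≤ A ⊔ B) ≫ Spec.map (CommRingCat.ofHom (qpRho m a ha A hA)) =
      Spec.map (CommRingCat.ofHom ρ) ≫ Spec.map (CommRingCat.ofHom
        (awayMap (homogeneousSubmodule (Fin (n + 1)) k) (qp_X_mem c) rfl)) := by
    unfold specIncl
    rw [← Spec.map_comp, ← Spec.map_comp]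
    congr 1
    ext z
    exact (qpEv_awayMap m _ _ _ ha (qp_X_mem a) (qp_X_mem c) rfl hac z).symm
  have h2 : specIncl (le_sup_right : B ≤ A ⊔ B) ≫
      Spec.map (CommRingCat.ofHom (qpRho m c hc B hB)) =
      Spec.map (CommRingCat.ofHom ρ) ≫ Spec.map (CommRingCat.ofHom
        (awayMap (homogeneousSubmodule (Fin (n + 1)) k) (qp_X_mem a) (mul_comm _ _))) := by
    unfold specIncl
    rw [← Spec.map_comp, ← Spec.map_comp]
    congr 1
    ext z
    exact (qpEv_awayMap m _ _ _ hc (qp_X_mem c) (qp_X_mem a) (mul_comm _ _) hac z).symm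
  unfold qpMap
  rw [← Category.assoc, h1, ← Category.assoc, h2, Category.assoc, Category.assoc,
    Proj.SpecMap_awayMap_awayι, Proj.SpecMap_awayMap_awayι]

/-- the preimage of a coordinate chart -/
lemma qpMap_preimage (m : Fin (n + 1) → K) (a c : Fin (n + 1))
    (ha : aeval m (X a : MvPolynomial (Fin (n + 1)) k) ≠ 0)
    (hc : aeval m (X c : MvPolynomial (Fin (n + 1)) k) ≠ 0)
    (B C : Subalgebra k K) (hB : ∀ b, m b / m c ∈ B) (hBC : B ≤ C)
    (hC : (m a / m c)⁻¹ ∈ C) (hCB : C ≤ B ⊔ Algebra.adjoin k {(m a / m c)⁻¹})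
    (q : Spec (.of B))
    (hq : qpMap m c hc B hB q ∈ Proj.basicOpen (homogeneousSubmodule (Fin (n + 1)) k) (X a)) :
    q ∈ Set.range (specIncl hBC) := by
  have ha' : m a ≠ 0 := by rwa [aeval_X] at ha
  have hc' : m c ≠ 0 := by rwa [aeval_X] at hc
  rw [mem_range_specIncl hBC (hB a) (div_ne_zero ha' hc') hC hCB]
  have h1 : Spec.map (CommRingCat.ofHom (qpRho m c hc B hB)) q ∈
      Proj.awayι (homogeneousSubmodule (Fin (n + 1)) k) (X c) (qp_X_mem c) one_pos ⁻¹ᵁ
        Proj.basicOpen _ (X a) := hq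
  rw [Proj.awayι_preimage_basicOpen _ (qp_X_mem c) one_pos (qp_X_mem a) one_pos] at h1
  have h2 : qpRho m c hc B hB (Away.isLocalizationElem (qp_X_mem c) (qp_X_mem a)) =
      ⟨m a / m c, hB a⟩ := by
    apply Subtype.ext
    change qpEv m (X c) hc (Away.isLocalizationElem (qp_X_mem c) (qp_X_mem a)) = m a / m c
    rw [Away.isLocalizationElem, qpEv_mk]
    simp
  have h3 : qpRho m c hc B hB (Away.isLocalizationElem (qp_X_mem c) (qp_X_mem a)) ∉ idl q := h1
  rwa [h2] at h3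

lemma qp_two_charts (m : Fin (n + 1) → K) (a c : Fin (n + 1))
    (ha : m a ≠ 0) (hc : m c ≠ 0)
    (A B : Subalgebra k K) (hA : ∀ b, m b / m a ∈ A)
    (hA' : A ≤ Algebra.adjoin k (Set.range fun b => m b / m a))
    (hB : ∀ b, m b / m c ∈ B) (hB' : B ≤ Algebra.adjoin k (Set.range fun b => m b / m c))
    (h1 : A ⊔ B ≤ A ⊔ Algebra.adjoin k {(m c / m a)⁻¹})
    (h2 : A ⊔ B ≤ B ⊔ Algebra.adjoin k {(m a / m c)⁻¹})
    {Y : Scheme.{u}} (α : Spec (.of A) ⟶ Y) (β : Spec (.of B) ⟶ Y) [IsOpenImmersion α]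
    [IsOpenImmersion β] (hcov : ∀ x : Y, x ∈ Set.range α ∨ x ∈ Set.range β)
    (hαβ : specIncl (le_sup_left : A ≤ A ⊔ B) ≫ α = specIncl (le_sup_right : B ≤ A ⊔ B) ≫ β)
    (hinter : Set.range α ∩ Set.range β ⊆ Set.range (specIncl (le_sup_left : A ≤ A ⊔ B) ≫ α))
    (f : Y ⟶ Spec (.of k))
    (hfα : α ≫ f = Spec.map (CommRingCat.ofHom (algebraMap k A)))
    (hfβ : β ≫ f = Spec.map (CommRingCat.ofHom (algebraMap k B))) :
    IsQuasiProjective f := by
  have ha0 : aeval m (X a : MvPolynomial (Fin (n + 1)) k) ≠ 0 := by rwa [aeval_X]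
  have hc0 : aeval m (X c : MvPolynomial (Fin (n + 1)) k) ≠ 0 := by rwa [aeval_X]
  have hca : (m c / m a)⁻¹ ∈ A ⊔ B := by
    rw [inv_div]; exact (le_sup_right : B ≤ A ⊔ B) (hB a)
  have hac : (m a / m c)⁻¹ ∈ A ⊔ B := by
    rw [inv_div]; exact (le_sup_left : A ≤ A ⊔ B) (hA c)
  have hopen : IsOpenImmersion (specIncl (le_sup_left : A ≤ A ⊔ B)) :=
    isOpenImmersion_specIncl ⟨m c / m a, hA c, div_ne_zero hc ha, hca, le_sup_left, h1⟩ _
  obtain ⟨G, hG1, hG2⟩ := qp_glue_two α β hcov (specIncl (le_sup_left : A ≤ A ⊔ B))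
    (specIncl (le_sup_right : B ≤ A ⊔ B)) hαβ hinter (qpMap m a ha0 A hA) (qpMap m c hc0 B hB)
    (qpMap_compat m a c ha0 hc0 A B hA hB)
  have e1 : IsImmersion (α ≫ G) := by rw [hG1]; exact qpMap_isImmersion m a ha0 A hA hA'
  have e2 : IsImmersion (β ≫ G) := by rw [hG2]; exact qpMap_isImmersion m c hc0 B hB hB'
  have p1 : ∀ x, G (α x) = qpMap m a ha0 A hA x := fun x => by rw [← hG1]; rfl
  have p2 : ∀ x, G (β x) = qpMap m c hc0 B hB x := fun x => by rw [← hG2]; rfl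
  have q1 : ∀ r, α (specIncl (le_sup_left : A ≤ A ⊔ B) r) =
      β (specIncl (le_sup_right : B ≤ A ⊔ B) r) := fun r => by
    rw [← Scheme.Hom.comp_apply, ← Scheme.Hom.comp_apply, hαβ]
  have e3 : G ⁻¹ᵁ Proj.basicOpen (homogeneousSubmodule (Fin (n + 1)) k) (X a) = α.opensRange := by
    apply le_antisymm
    · intro y hy
      rcases hcov y with ⟨x, rfl⟩ | ⟨q, rfl⟩
      · exact ⟨x, rfl⟩
      · have hy' : G (β q) ∈ Proj.basicOpen (homogeneousSubmodule (Fin (n + 1)) k) (X a) := hy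
        rw [p2] at hy'
        obtain ⟨r, rfl⟩ := qpMap_preimage m a c ha0 hc0 B (A ⊔ B) hB le_sup_right hac h2 q hy'
        rw [← q1]
        exact ⟨_, rfl⟩
    · rintro _ ⟨x, rfl⟩
      change G (α x) ∈ Proj.basicOpen (homogeneousSubmodule (Fin (n + 1)) k) (X a)
      rw [p1]
      exact qpMap_range _ _ _ _ _ _
  have e4 : G ⁻¹ᵁ Proj.basicOpen (homogeneousSubmodule (Fin (n + 1)) k) (X c) = β.opensRange := by
    apply le_antisymm
    · intro y hy
      rcases hcov y with ⟨q, rfl⟩ | ⟨x, rfl⟩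
      · have hy' : G (α q) ∈ Proj.basicOpen (homogeneousSubmodule (Fin (n + 1)) k) (X c) := hy
        rw [p1] at hy'
        obtain ⟨r, rfl⟩ := qpMap_preimage m c a hc0 ha0 A (A ⊔ B) hA le_sup_left hca h1 q hy'
        rw [q1]
        exact ⟨_, rfl⟩
      · exact ⟨x, rfl⟩
    · rintro _ ⟨x, rfl⟩
      change G (β x) ∈ Proj.basicOpen (homogeneousSubmodule (Fin (n + 1)) k) (X c)
      rw [p2]
      exact qpMap_range _ _ _ _ _ _
  have hG : IsImmersion G := qp_isImmersion α β hcov G _ _ e3 e4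
  refine ⟨n, G, hG, ?_⟩
  apply qp_hom_ext_two α β hcov
  · rw [hfα, ← qpMap_toSpec m a ha0 A hA, ← hG1]
    rfl
  · rw [hfβ, ← qpMap_toSpec m c hc0 B hB, ← hG2]
    rfl

end Two

section Pair

variable {k : Type u} [Field k] {K : Type u} [Field K] [Algebra k K]

variable {ι : Type} {A : ι → Subalgebra k K} {X : Scheme.{u}} {f : X ⟶ Spec (.of k)}
  {c : ∀ i, Spec (.of (A i)) ⟶ X}

/-- uniform exponent -/
lemma qp_exists_pow (S : Finset K) (B : Subalgebra k K) (φ : K) (hφ : φ ∈ B)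
    (h : ∀ x ∈ S, ∃ n : ℕ, x * φ ^ n ∈ B) : ∃ N : ℕ, ∀ M, N ≤ M → ∀ x ∈ S, x * φ ^ M ∈ B := by
  classical
  choose! n hn using h
  refine ⟨S.sup n, fun M hM x hx => ?_⟩
  have h1 : n x ≤ M := (Finset.le_sup hx).trans hM
  have h2 : x * φ ^ M = (x * φ ^ n x) * φ ^ (M - n x) := by
    rw [mul_assoc, ← pow_add, Nat.add_sub_cancel' h1]
  rw [h2]
  exact mul_mem (hn x hx) (pow_mem hφ _)

/-- algebraic part of the two chart construction -/
lemma qp_exists_coords (A B : Subalgebra k K) (φ : K) (h0 : φ ≠ 0)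
    (hφ : φ ∈ B) (hφ' : φ⁻¹ ∈ A)
    (h1 : A ⊔ B ≤ A ⊔ Algebra.adjoin k {φ}) (h2 : A ⊔ B ≤ B ⊔ Algebra.adjoin k {φ⁻¹})
    (hi : A.FG) (hj : B.FG) :
    ∃ (n : ℕ) (m : Fin (n + 1) → K) (a c : Fin (n + 1)), m a ≠ 0 ∧ m c ≠ 0 ∧
      (∀ b, m b / m a ∈ A) ∧ (A ≤ Algebra.adjoin k (Set.range fun b => m b / m a)) ∧
      (∀ b, m b / m c ∈ B) ∧ (B ≤ Algebra.adjoin k (Set.range fun b => m b / m c)) ∧
      (A ⊔ B ≤ A ⊔ Algebra.adjoin k {(m c / m a)⁻¹}) ∧
      (A ⊔ B ≤ B ⊔ Algebra.adjoin k {(m a / m c)⁻¹}) := by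
  classical
  obtain ⟨S, hS⟩ := hi
  obtain ⟨T, hT⟩ := hj
  have hSA : ∀ x ∈ S, x ∈ A := fun x hx => by
    rw [← hS]; exact Algebra.subset_adjoin hx
  have hTB : ∀ x ∈ T, x ∈ B := fun x hx => by
    rw [← hT]; exact Algebra.subset_adjoin hx
  obtain ⟨N₁, hN₁⟩ := qp_exists_pow S B φ hφ (fun x hx =>
    exists_mul_pow_mem hφ h0 (h2 ((le_sup_left : A ≤ A ⊔ B) (hSA x hx))))
  obtain ⟨N₂, hN₂⟩ := qp_exists_pow T A φ⁻¹ hφ' (fun x hx =>
    exists_mul_pow_mem hφ' (inv_ne_zero h0) (by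
      rw [inv_inv]
      exact h1 ((le_sup_right : B ≤ A ⊔ B) (hTB x hx))))
  obtain ⟨N, hN0, hN1, hN2⟩ : ∃ N : ℕ, N ≠ 0 ∧ N₁ ≤ N ∧ N₂ ≤ N :=
    ⟨N₁ + N₂ + 1, by omega, by omega, by omega⟩
  have hφN : (φ⁻¹) ^ N ≠ 0 := pow_ne_zero _ (inv_ne_zero h0)
  let I := (Unit ⊕ S) ⊕ (Unit ⊕ T)
  let mI : I → K := fun t => match t with
    | .inl (.inl _) => 1
    | .inl (.inr s) => s
    | .inr (.inl _) => (φ⁻¹) ^ N
    | .inr (.inr t) => t * (φ⁻¹) ^ N
  obtain ⟨n, hn⟩ : ∃ n, Fintype.card I = n + 1 := by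
    refine ⟨Fintype.card I - 1, ?_⟩
    have : 0 < Fintype.card I := Fintype.card_pos_iff.mpr ⟨.inl (.inl ())⟩
    omega
  let e : I ≃ Fin (n + 1) := Fintype.equivFinOfCardEq hn
  let m : Fin (n + 1) → K := fun b => mI (e.symm b)
  have hm : ∀ t, m (e t) = mI t := fun t => by simp [m]
  have hm' : ∀ b, ∃ t, b = e t := fun b => ⟨e.symm b, by simp⟩
  have ha : m (e (.inl (.inl ()))) = 1 := by rw [hm]
  have hc : m (e (.inr (.inl ()))) = (φ⁻¹) ^ N := by rw [hm]
  refine ⟨n, m, e (.inl (.inl ())), e (.inr (.inl ())), ?_, ?_, ?_, ?_, ?_, ?_, ?_, ?_⟩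
  · rw [ha]; exact one_ne_zero
  · rw [hc]; exact hφN
  · intro b
    obtain ⟨t, rfl⟩ := hm' b
    rw [ha, hm, div_one]
    rcases t with (_ | s) | (_ | t)
    · exact one_mem _
    · exact hSA _ s.2
    · exact pow_mem hφ' _
    · exact hN₂ N hN2 _ t.2
  · rw [← hS, Algebra.adjoin_le_iff]
    intro x hx
    apply Algebra.subset_adjoin
    refine ⟨e (.inl (.inr ⟨x, hx⟩)), ?_⟩
    change m _ / m _ = x
    rw [ha, hm, div_one]
  · intro b
    obtain ⟨t, rfl⟩ := hm' b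
    rw [hc, hm]
    rcases t with (_ | s) | (_ | t)
    · change 1 / (φ⁻¹) ^ N ∈ B
      rw [one_div, inv_pow, inv_inv]
      exact pow_mem hφ _
    · change (s : K) / (φ⁻¹) ^ N ∈ B
      rw [inv_pow, div_inv_eq_mul]
      exact hN₁ N hN1 _ s.2
    · change (φ⁻¹) ^ N / (φ⁻¹) ^ N ∈ B
      rw [div_self hφN]
      exact one_mem _
    · change (t : K) * (φ⁻¹) ^ N / (φ⁻¹) ^ N ∈ B
      rw [mul_div_assoc, div_self hφN, mul_one]
      exact hTB _ t.2
  · rw [← hT, Algebra.adjoin_le_iff]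
    intro x hx
    apply Algebra.subset_adjoin
    refine ⟨e (.inr (.inr ⟨x, hx⟩)), ?_⟩
    change m _ / m _ = x
    rw [hc, hm]
    change x * (φ⁻¹) ^ N / (φ⁻¹) ^ N = x
    rw [mul_div_assoc, div_self hφN, mul_one]
  · rw [ha, hc, div_one, inv_pow, inv_inv]
    refine h1.trans (sup_le le_sup_left ?_)
    rw [Algebra.adjoin_le_iff]
    rintro x rfl
    have h3 : x = x ^ N * (x⁻¹) ^ (N - 1) := by
      obtain ⟨M, rfl⟩ := Nat.exists_eq_succ_of_ne_zero hN0
      rw [Nat.succ_sub_one, pow_succ, inv_pow]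
      field_simp
    have h4 : x ^ N ∈ A ⊔ Algebra.adjoin k {x ^ N} :=
      (le_sup_right : Algebra.adjoin k {x ^ N} ≤ _) (Algebra.subset_adjoin rfl)
    have h5 : x⁻¹ ∈ A ⊔ Algebra.adjoin k {x ^ N} := (le_sup_left : A ≤ _) hφ'
    change x ∈ A ⊔ Algebra.adjoin k {x ^ N}
    have h6 := mul_mem h4 (pow_mem h5 (N - 1))
    rwa [← h3] at h6
  · rw [ha, hc, inv_div, div_one]
    refine h2.trans (sup_le le_sup_left ?_)
    rw [Algebra.adjoin_le_iff]
    rintro x rfl
    have h3 : φ⁻¹ = (φ⁻¹) ^ N * φ ^ (N - 1) := by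
      obtain ⟨M, rfl⟩ := Nat.exists_eq_succ_of_ne_zero hN0
      rw [Nat.succ_sub_one, pow_succ, inv_pow]
      field_simp
    have h4 : (φ⁻¹) ^ N ∈ B ⊔ Algebra.adjoin k {(φ⁻¹) ^ N} :=
      (le_sup_right : Algebra.adjoin k {(φ⁻¹) ^ N} ≤ _) (Algebra.subset_adjoin rfl)
    have h5 : φ ∈ B ⊔ Algebra.adjoin k {(φ⁻¹) ^ N} := (le_sup_left : B ≤ _) hφ
    change φ⁻¹ ∈ B ⊔ Algebra.adjoin k {(φ⁻¹) ^ N}
    have h6 := mul_mem h4 (pow_mem h5 (N - 1))
    rwa [← h3] at h6

/-- **G4**: the union of two charts is quasi-projective. -/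
theorem IsModel.isQuasiProjective_pair (hM : IsModel A X f c) (i j : ι) (φ : K) (h0 : φ ≠ 0)
    (hφ : φ ∈ A j) (hφ' : φ⁻¹ ∈ A i)
    (h1 : A i ⊔ A j ≤ A i ⊔ Algebra.adjoin k {φ}) (h2 : A i ⊔ A j ≤ A j ⊔ Algebra.adjoin k {φ⁻¹})
    (hi : (A i).FG) (hj : (A j).FG) (U : X.Opens)
    (hU : (U : Set X) = Set.range (c i) ∪ Set.range (c j)) :
    IsQuasiProjective (U.ι ≫ f) := by
  obtain ⟨n, m, a, b, ha, hb, hA, hA', hB, hB', h3, h4⟩ :=
    qp_exists_coords (A i) (A j) φ h0 hφ hφ' h1 h2 hi hj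
  have o1 := hM.isOpenImmersion i
  have o2 := hM.isOpenImmersion j
  have hUr : Set.range U.ι = (U : Set X) := by simp
  have r1 : Set.range (c i) ⊆ Set.range U.ι := by rw [hUr, hU]; exact Set.subset_union_left
  have r2 : Set.range (c j) ⊆ Set.range U.ι := by rw [hUr, hU]; exact Set.subset_union_right
  let α : Spec (.of (A i)) ⟶ U := IsOpenImmersion.lift U.ι (c i) r1
  let β : Spec (.of (A j)) ⟶ U := IsOpenImmersion.lift U.ι (c j) r2
  have hα : α ≫ U.ι = c i := IsOpenImmersion.lift_fac _ _ _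
  have hβ : β ≫ U.ι = c j := IsOpenImmersion.lift_fac _ _ _
  have o3 : IsOpenImmersion (α ≫ U.ι) := by rw [hα]; exact o1
  have o4 : IsOpenImmersion (β ≫ U.ι) := by rw [hβ]; exact o2
  have o5 : IsOpenImmersion α := IsOpenImmersion.of_comp α U.ι
  have o6 : IsOpenImmersion β := IsOpenImmersion.of_comp β U.ι
  have pα : ∀ x, U.ι (α x) = c i x := fun x => by rw [← hα]; rfl
  have pβ : ∀ x, U.ι (β x) = c j x := fun x => by rw [← hβ]; rfl
  have hinj : Function.Injective U.ι := U.ι.isOpenEmbedding.injective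
  refine qp_two_charts m a b ha hb (A i) (A j) hA hA' hB hB' h3 h4 α β ?_ ?_ ?_ (U.ι ≫ f) ?_ ?_
  · intro x
    have hx : U.ι x ∈ (U : Set X) := by rw [← hUr]; exact ⟨x, rfl⟩
    rw [hU] at hx
    rcases hx with ⟨y, hy⟩ | ⟨y, hy⟩
    · left
      exact ⟨y, hinj (by rw [pα]; exact hy)⟩
    · right
      exact ⟨y, hinj (by rw [pβ]; exact hy)⟩
  · rw [← cancel_mono U.ι, Category.assoc, Category.assoc, hα, hβ]
    exact hM.compat i j
  · rintro x ⟨⟨y, hy⟩, ⟨z, hz⟩⟩
    have h5 : U.ι x ∈ Set.range (c i) ∩ Set.range (c j) :=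
      ⟨⟨y, by rw [← pα, hy]⟩, ⟨z, by rw [← pβ, hz]⟩⟩
    obtain ⟨w, hw⟩ := hM.inter i j h5
    refine ⟨w, hinj ?_⟩
    rw [← hw, ← hα]
    rfl
  · rw [← Category.assoc, hα]
    exact hM.over_base i
  · rw [← Category.assoc, hβ]
    exact hM.over_base j

end Pair

end Helper50.D71
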