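import Mathlib

/-!
# MP_d71e86_ag : dimension of a closed curve in a threefold (topological)
-/

open TopologicalSpace

namespace Helper50.D71

/-- The closure of a point as an irreducible closed set. -/
private def cl {X : Type*} [TopologicalSpace X] (x : X) : IrreducibleCloseds X where
  carrier := closure {x}
  isIrreducible' := isIrreducible_singleton.closure
  isClosed' := isClosed_closure

private theorem cl_le {X : Type*} [TopologicalSpace X] {x y : X} (h : x ⤳ y) : cl y ≤ cl x :=
  specializes_iff_closure_subset.1 h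

private theorem cl_lt {X : Type*} [TopologicalSpace X] {x y : X} (h : x ⤳ y) (h' : ¬ y ⤳ x) :
    cl y < cl x :=
  lt_of_le_not_ge (cl_le h) fun h2 => h' (specializes_iff_closure_subset.2 h2)

theorem dim_curve {X : Type*} [TopologicalSpace X] (hX : topologicalKrullDim X = 3)
    (x₀ x₁ x₂ x₃ : X) (h₀ : x₀ ⤳ x₁) (h₁ : x₁ ⤳ x₂) (h₂ : x₂ ⤳ x₃)
    (h₀' : ¬ x₁ ⤳ x₀) (h₁' : ¬ x₂ ⤳ x₁) (h₂' : ¬ x₃ ⤳ x₂) {C : Type*} [TopologicalSpace C]
    (j : C → X) (hj : Topology.IsClosedEmbedding j) (hr : Set.range j = closure {x₂}) :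
    topologicalKrullDim C = 1 := by
  have e₁ : Order.height (cl x₂) + 1 ≤ Order.height (cl x₁) :=
    Order.height_add_one_le (cl_lt h₁ h₁')
  have e₀ : Order.height (cl x₁) + 1 ≤ Order.height (cl x₀) :=
    Order.height_add_one_le (cl_lt h₀ h₀')
  have e : (Order.height (cl x₀) : WithBot ℕ∞) ≤ 3 := hX ▸ Order.height_le_krullDim (cl x₀)
  have e3 : Order.height (cl x₀) ≤ 3 := WithBot.coe_le_coe.1 e
  have e2 : Order.height (cl x₂) ≤ 1 := by
    have h : Order.height (cl x₂) + 2 ≤ 1 + 2 := by
      calc Order.height (cl x₂) + 2 = (Order.height (cl x₂) + 1) + 1 := by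
            rw [add_assoc]; norm_num
        _ ≤ Order.height (cl x₁) + 1 := by gcongr
        _ ≤ Order.height (cl x₀) := e₀
        _ ≤ 3 := e3
        _ = 1 + 2 := by norm_num
    exact (ENat.add_le_add_iff_right (by norm_num)).1 h
  have m₂ : x₂ ∈ Set.range j := hr ▸ subset_closure rfl
  have m₃ : x₃ ∈ Set.range j := hr ▸ h₂.mem_closure
  obtain ⟨c₂, hc₂⟩ := m₂
  obtain ⟨c₃, hc₃⟩ := m₃
  have s : c₂ ⤳ c₃ := by
    rw [← hj.isInducing.specializes_iff, hc₂, hc₃]; exact h₂
  have s' : ¬ c₃ ⤳ c₂ := by
    rw [← hj.isInducing.specializes_iff, hc₂, hc₃]; exact h₂'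
  have hne : Nonempty (IrreducibleCloseds C) := ⟨cl c₂⟩
  apply le_antisymm
  · rw [topologicalKrullDim, Order.krullDim_eq_iSup_height_of_nonempty]
    have : ∀ Z : IrreducibleCloseds C, Order.height Z ≤ 1 := by
      intro Z
      refine le_trans (Order.height_le_height_apply_of_strictMono
        (IrreducibleCloseds.map j hj.continuous)
        (IrreducibleCloseds.map_strictMono_of_isInducing hj.isInducing) Z) ?_
      refine le_trans (Order.height_mono (b := cl x₂) ?_) e2
      change closure (j '' Z) ⊆ closure {x₂}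
      rw [← hr, hj.isClosed_range.closure_subset_iff]
      exact Set.image_subset_range _ _
    exact_mod_cast iSup_le this
  · have h1 : 1 ≤ Order.height (cl c₂) := by
      refine le_trans ?_ (Order.height_add_one_le (cl_lt s s'))
      exact le_add_self
    refine le_trans ?_ (Order.height_le_krullDim (cl c₂))
    exact_mod_cast h1

end Helper50.D71
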